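import Pool.Agent.helper35.OT.Spec

/-! # Project OT, row US -/

set_option autoImplicit false

namespace Pool.Agent.helper35.OT

open Finset

theorem US_coeff (c0 c1 c2 : ℤ) (n : ℕ) : (Lam c0 c1 c2).coeff n =
    (if n = 0 then 1 - c2 else 0) + (if n = 1 then -2 * c1 else 0) +
      (if n = 2 then c1 ^ 2 + (c1 - 2 * c0) * c2 else 0) := by
  unfold Lam
  rw [Polynomial.coeff_add, Polynomial.coeff_add, Polynomial.coeff_C, Polynomial.coeff_C_mul,
    Polynomial.coeff_C_mul, Polynomial.coeff_X, Polynomial.coeff_X_pow]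
  simp only [mul_ite, mul_one, mul_zero, eq_comm (a := n)]

theorem US_one (f : ℕ → ℤ) (m : ℕ) : ∑ i ∈ range (m + 1), (if i = 0 then f i else 0) = f 0 := by
  rw [Finset.sum_ite_eq' (range (m + 1)) 0 f]
  simp

theorem US_two (f : ℕ → ℤ) (m : ℕ) : ∑ i ∈ range (m + 1), (if m - i = 0 then f i else 0) = f m := by
  rw [Finset.sum_range_succ]
  have h : ∑ i ∈ range m, (if m - i = 0 then f i else 0) = 0 := by
    refine Finset.sum_eq_zero fun i hi => ?_
    rw [if_neg]
    have := Finset.mem_range.1 hi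
    omega
  rw [h]
  simp

theorem US_ab (c : ℤ) (P Q : Prop) [Decidable P] [Decidable Q] (x y d : ℤ) :
    (-(if P then c else 0) - d * x) * (-(if Q then c else 0) - d * y) =
      (if P then (if Q then c ^ 2 else 0) else 0) + (if P then c * d * y else 0) +
        (if Q then c * d * x else 0) + d ^ 2 * (x * y) := by
  split_ifs <;> ring

theorem US_sum (c1 c2 : ℕ) (r : ℕ → ℕ) (m : ℕ) :
    ∑ i ∈ range (m + 1), ua c1 c2 r (i + 1) * ua c1 c2 r (m - i + 1) =
      (if m = 0 then (c1 : ℤ) ^ 2 else 0) + 2 * c1 * c2 * r m +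
        (c2 : ℤ) ^ 2 * ∑ i ∈ range (m + 1), (r i : ℤ) * r (m - i) := by
  have h : ∀ i ∈ range (m + 1), ua c1 c2 r (i + 1) * ua c1 c2 r (m - i + 1) =
      (if i = 0 then (if m - i = 0 then (c1 : ℤ) ^ 2 else 0) else 0) +
        (if i = 0 then (c1 : ℤ) * c2 * r (m - i) else 0) +
        (if m - i = 0 then (c1 : ℤ) * c2 * r i else 0) + (c2 : ℤ) ^ 2 * ((r i : ℤ) * r (m - i)) := by
    intro i _
    rw [ua, ua]
    exact US_ab _ _ _ _ _ _
  rw [Finset.sum_congr rfl h, Finset.sum_add_distrib, Finset.sum_add_distrib, Finset.sum_add_distrib,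
    US_one (fun i => if m - i = 0 then (c1 : ℤ) ^ 2 else 0) m,
    US_one (fun i => (c1 : ℤ) * c2 * r (m - i)) m,
    US_two (fun i => (c1 : ℤ) * c2 * r i) m, ← Finset.mul_sum]
  simp only [Nat.sub_zero]
  ring

theorem US : US_stmt := by
  intro c0 c1 c2 r hr n
  obtain ⟨h0, hrec⟩ := hr
  rcases n with _ | _ | m
  · rw [US_coeff]
    simp [ua]
  · rw [US_coeff]
    simp [Finset.sum_range_succ, ua, h0]
    ring
  · have hr1 := hrec m
    have hz : (2 : ℤ) * r (m + 1) = 2 * (if m = 0 then (c0 : ℤ) else 0) + 2 * c1 * r m +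
        c2 * (∑ i ∈ range (m + 1), (r i : ℤ) * r (m - i) + if m % 2 = 0 then (r (m / 2) : ℤ) else 0) := by
      have := congrArg (fun x : ℕ => (x : ℤ)) hr1
      push_cast at this
      exact this
    rw [Finset.sum_range_succ, Finset.sum_range_succ', US_coeff]
    have e1 : ∀ i ∈ range (m + 1), ua c1 c2 r (i + 1) * ua c1 c2 r (m + 1 + 1 - (i + 1)) =
        ua c1 c2 r (i + 1) * ua c1 c2 r (m - i + 1) := by
      intro i hi
      have hi' := Finset.mem_range.1 hi
      have : m + 1 + 1 - (i + 1) = m - i + 1 := by omega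
      rw [this]
    rw [Finset.sum_congr rfl e1, US_sum]
    have e2 : ua c1 c2 r (m + 1 + 1) = - (c2 : ℤ) * r (m + 1) := by
      rw [ua, if_neg (by omega)]
      ring
    have e3 : ua c1 c2 r 0 = 1 := by rw [ua]
    have e4 : m + 1 + 1 - 0 = m + 1 + 1 := rfl
    have e5 : m + 1 + 1 - (m + 1 + 1) = 0 := Nat.sub_self _
    have e6 : (m + 1 + 1) % 2 = m % 2 := by omega
    have e7 : (m + 1 + 1) / 2 = m / 2 + 1 := by omega
    have e8 : ua c1 c2 r (m / 2 + 1) = -(if m / 2 = 0 then (c1 : ℤ) else 0) - c2 * r (m / 2) := by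
      rw [ua]
    rw [e4, e5, e6, e7, e8, e2, e3]
    have f1 : ¬ (m + 1 + 1 = 0) := by omega
    have f2 : ¬ (m + 1 + 1 = 1) := by omega
    rw [if_neg f1, if_neg f2]
    have key : ∀ S : ℤ, (2 : ℤ) * r (m + 1) = 2 * (if m = 0 then (c0 : ℤ) else 0) + 2 * c1 * r m +
        c2 * (S + if m % 2 = 0 then (r (m / 2) : ℤ) else 0) →
        (if m = 0 then (c1 : ℤ) ^ 2 else 0) + 2 * c1 * c2 * r m + (c2 : ℤ) ^ 2 * S +
          1 * (- (c2 : ℤ) * r (m + 1)) + - (c2 : ℤ) * r (m + 1) * 1 =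
        c2 * (if m % 2 = 0 then -(if m / 2 = 0 then (c1 : ℤ) else 0) - c2 * r (m / 2) else 0) +
          (0 + 0 + if m + 1 + 1 = 2 then (c1 : ℤ) ^ 2 + (c1 - 2 * c0) * c2 else 0) := by
      intro S hS
      have g : (if m = 0 then (c1 : ℤ) ^ 2 else 0) + 2 * c1 * c2 * r m + (c2 : ℤ) ^ 2 * S +
          1 * (- (c2 : ℤ) * r (m + 1)) + - (c2 : ℤ) * r (m + 1) * 1 =
          (if m = 0 then (c1 : ℤ) ^ 2 else 0) + 2 * c1 * c2 * r m + (c2 : ℤ) ^ 2 * S - c2 * (2 * r (m + 1)) := by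
        ring
      rw [g, hS]
      rcases Nat.eq_zero_or_pos m with rfl | hm
      · simp
        ring
      · have k1 : ¬ (m = 0) := by omega
        have k2 : ¬ (m + 1 + 1 = 2) := by omega
        rw [if_neg k1, if_neg k1, if_neg k2]
        by_cases hev : m % 2 = 0
        · have k3 : ¬ (m / 2 = 0) := by omega
          rw [if_pos hev, if_pos hev, if_neg k3]
          ring
        · rw [if_neg hev, if_neg hev]
          ring
    have := key (∑ i ∈ range (m + 1), (r i : ℤ) * r (m - i)) hz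
    rw [← this]

end Pool.Agent.helper35.OT
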